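import Pool.Agent.Q46.ND.StmE

/-!
# Project ND (helper46), job EB: generic homogeneous reduction
-/

set_option autoImplicit false

open MvPolynomial

namespace Pool.Agent.Q150.ND

open Pool.Agent.Q46.ND

section Rp

variable {A : Type} [CommRing A] {m d : ℕ} {Φ : MvPolynomial (Fin m) A} {δ : A} {e : ℕ}
  {G G' : MvPolynomial (Fin m) A}

/-- the conclusion of `RedHom` for one polynomial -/
def Rp (d : ℕ) (Φ : MvPolynomial (Fin m) A) (δ : A) (e : ℕ) (G : MvPolynomial (Fin m) A) : Prop :=
  ∃ (g : Fin m → MvPolynomial (Fin m) A) (c : BB m d → A),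
      C δ * G = ∑ i, g i * pderiv i Φ + ∑ β, C (c β) * mon β ∧
      (∀ i, (g i).IsHomogeneous (e - (d - 1))) ∧ (e < d - 1 → ∀ i, g i = 0) ∧
      ∀ β, ∑ i, (β i : ℕ) ≠ e → c β = 0

theorem Rp.zero : Rp d Φ δ e 0 :=
  ⟨fun _ => 0, fun _ => 0, by simp, fun _ => isHomogeneous_zero _ _ _, fun _ _ => rfl,
    fun _ _ => rfl⟩

theorem Rp.add (h1 : Rp d Φ δ e G) (h2 : Rp d Φ δ e G') : Rp d Φ δ e (G + G') := by
  obtain ⟨g, c, hg, h3, h4, h5⟩ := h1
  obtain ⟨g', c', hg', h3', h4', h5'⟩ := h2
  refine ⟨fun i => g i + g' i, fun β => c β + c' β, ?_, fun i => (h3 i).add (h3' i), ?_, ?_⟩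
  · rw [mul_add, hg, hg']
    simp only [add_mul, map_add, Finset.sum_add_distrib]
    ring
  · intro he i
    show g i + g' i = 0
    rw [h4 he i, h4' he i, add_zero]
  · intro β hβ
    show c β + c' β = 0
    rw [h5 β hβ, h5' β hβ, add_zero]

theorem Rp.mul (h : Rp d Φ δ e G) (a : A) : Rp d Φ (a * δ) e G := by
  obtain ⟨g, c, hg, h3, h4, h5⟩ := h
  refine ⟨fun i => C a * g i, fun β => a * c β, ?_, fun i => (h3 i).C_mul a, ?_, ?_⟩
  · rw [C_mul, mul_assoc, hg, mul_add, Finset.mul_sum, Finset.mul_sum]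
    simp only [C_mul, mul_assoc]
  · intro he i
    show C a * g i = 0
    rw [h4 he i, mul_zero]
  · intro β hβ
    show a * c β = 0
    rw [h5 β hβ, mul_zero]

/-- multiplication by a variable above the degree of all reduced monomials -/
theorem Rp.X_mul (h : Rp d Φ δ e G) (hd : 2 ≤ d) (he : m * (d - 2) < e) (j : Fin m) :
    Rp d Φ δ (e + 1) (X j * G) := by
  obtain ⟨g, c, hg, h3, h4, h5⟩ := h
  have hc : ∀ β, c β = 0 := by
    intro β
    apply h5
    intro h6
    have h7 : ∑ i, (β i : ℕ) ≤ m * (d - 2) := by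
      have h8 := Finset.sum_le_card_nsmul (Finset.univ : Finset (Fin m)) (fun i => (β i : ℕ))
        (d - 2) (fun i _ => by
          have := (β i).2
          omega)
      simpa using h8
    omega
  refine ⟨fun i => X j * g i, fun _ => 0, ?_, ?_, ?_, fun _ _ => rfl⟩
  · have h9 : C δ * (X j * G) = X j * (C δ * G) := by ring
    rw [h9, hg, mul_add, Finset.mul_sum]
    simp only [hc, C_0, zero_mul, Finset.sum_const_zero, mul_zero, add_zero, mul_assoc]
  · intro i
    show (X j * g i).IsHomogeneous (e + 1 - (d - 1))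
    by_cases h10 : e < d - 1
    · rw [h4 h10 i, mul_zero]
      exact isHomogeneous_zero _ _ _
    · have h11 := (isHomogeneous_X A j).mul (h3 i)
      have h12 : 1 + (e - (d - 1)) = e + 1 - (d - 1) := by omega
      rwa [h12] at h11
  · intro h10 i
    show X j * g i = 0
    rw [h4 (by omega) i, mul_zero]

/-- raising the degree -/
theorem Rp.step (hd : 2 ≤ d) (he : m * (d - 2) < e)
    (h : ∀ G : MvPolynomial (Fin m) A, G.IsHomogeneous e → Rp d Φ δ e G) :
    ∀ G : MvPolynomial (Fin m) A, G.IsHomogeneous (e + 1) → Rp d Φ δ (e + 1) G := by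
  intro G hG
  rw [G.as_sum]
  refine Finset.sum_induction _ (Rp d Φ δ (e + 1)) (fun a b ha hb => ha.add hb) Rp.zero ?_
  intro α hα
  have hdeg : α.degree = e + 1 := by
    by_contra h1
    exact (mem_support_iff.mp hα) (hG.coeff_eq_zero h1)
  have hne : ∃ j, α j ≠ 0 := by
    by_contra h1
    push Not at h1
    have h2 : α = 0 := Finsupp.ext h1
    rw [h2] at hdeg
    simp at hdeg
  obtain ⟨j, hj⟩ := hne
  have h1 : α = Finsupp.single j 1 + (α - Finsupp.single j 1) := by
    rw [add_comm]
    refine (tsub_add_cancel_of_le ?_).symm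
    rw [Finsupp.single_le_iff]
    omega
  have h2 : monomial α (coeff α G) = X j * monomial (α - Finsupp.single j 1) (coeff α G) := by
    rw [X, monomial_mul, one_mul, ← h1]
  rw [h2]
  apply (h _ _).X_mul hd he
  apply isHomogeneous_monomial
  have h3 := congrArg Finsupp.degree h1
  rw [map_add, Finsupp.degree_single, hdeg] at h3
  omega

end Rp

/-- exponent vectors of degree `e` -/
abbrev Q (m e : ℕ) : Type := {α : Fin m →₀ ℕ // α.degree = e}

/-- exponent vectors of degree `e - (d - 1)` -/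
abbrev Q' (m d e : ℕ) : Type := {α : Fin m →₀ ℕ // α.degree + (d - 1) = e}

theorem fin_aux (m e : ℕ) (P : (Fin m →₀ ℕ) → Prop) (hP : ∀ α, P α → α.degree ≤ e) :
    Finite {α : Fin m →₀ ℕ // P α} := by
  refine Finite.of_injective
    (fun (α : {α : Fin m →₀ ℕ // P α}) (i : Fin m) =>
      (⟨α.1 i, Nat.lt_succ_of_le ((Finsupp.le_degree i α.1).trans (hP _ α.2))⟩ : Fin (e + 1))) ?_
  intro α β h
  apply Subtype.ext
  ext i
  exact congrArg Fin.val (congrFun h i)

instance (m e : ℕ) : Finite (Q m e) := fin_aux m e _ fun _ h => h.le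

instance (m d e : ℕ) : Finite (Q' m d e) := fin_aux m e _ fun _ h => by omega

noncomputable instance (m e : ℕ) : Fintype (Q m e) := Fintype.ofFinite _

noncomputable instance (m d e : ℕ) : Fintype (Q' m d e) := Fintype.ofFinite _

/-- the columns -/
noncomputable def col {A : Type} [CommRing A] {m : ℕ} (d e : ℕ) (Φ : MvPolynomial (Fin m) A) :
    (Fin m × Q' m d e) ⊕ BB m d → MvPolynomial (Fin m) A :=
  Sum.elim (fun y => monomial y.2.1 1 * pderiv y.1 Φ) (fun β => mon β)

/-- the matrix -/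
noncomputable def mat {A : Type} [CommRing A] {m : ℕ} (d e : ℕ) (Φ : MvPolynomial (Fin m) A) :
    Matrix (Q m e) ((Fin m × Q' m d e) ⊕ BB m d) A :=
  Matrix.of fun α x => coeff α.1 (col d e Φ x)

theorem mon_hom {A : Type} [CommRing A] {m d : ℕ} (β : BB m d) :
    (mon β : MvPolynomial (Fin m) A).IsHomogeneous (∑ i, (β i : ℕ)) := by
  unfold mon
  exact IsHomogeneous.prod _ _ _ fun i _ => isHomogeneous_X_pow i _

theorem map_mon {A B : Type} [CommRing A] [CommRing B] (s : A →+* B) {m d : ℕ} (β : BB m d) :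
    map s (mon β : MvPolynomial (Fin m) A) = mon β := by
  simp [mon, map_prod]

theorem map_col {A B : Type} [CommRing A] [CommRing B] (s : A →+* B) {m : ℕ} (d e : ℕ)
    (Φ : MvPolynomial (Fin m) A) (x : (Fin m × Q' m d e) ⊕ BB m d) :
    map s (col d e Φ x) = col d e (map s Φ) x := by
  rcases x with y | β
  · show map s (monomial y.2.1 1 * pderiv y.1 Φ) = monomial y.2.1 1 * pderiv y.1 (map s Φ)
    rw [map_mul, map_monomial, map_one, pderiv_map]
  · exact map_mon s β

theorem map_mat {A B : Type} [CommRing A] [CommRing B] (s : A →+* B) {m : ℕ} (d e : ℕ)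
    (Φ : MvPolynomial (Fin m) A) : (mat d e Φ).map s = mat d e (map s Φ) := by
  ext α x
  show s (coeff α.1 (col d e Φ x)) = coeff α.1 (col d e (map s Φ) x)
  rw [← map_col, coeff_map]

/-- surjectivity for the Fermat form -/
theorem surj {k : Type} [Field k] {m d : ℕ} (hd : 2 ≤ d) (hdk : (d : k) ≠ 0) (e : ℕ) :
    ∀ v : Q m e → k, ∃ u, (mat d e (∑ i, X i ^ d : MvPolynomial (Fin m) k)).mulVec u = v := by
  classical
  -- every monomial is a multiple of a column
  have hcol : ∀ α : Q m e, ∃ (x : (Fin m × Q' m d e) ⊕ BB m d) (t : k),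
      C t * col d e (∑ i, X i ^ d : MvPolynomial (Fin m) k) x = monomial α.1 1 := by
    intro α
    by_cases h : ∃ i, d - 1 ≤ α.1 i
    · obtain ⟨i, hi⟩ := h
      have hle : Finsupp.single i (d - 1) ≤ α.1 := by
        rw [Finsupp.single_le_iff]
        exact hi
      have hsum : α.1 - Finsupp.single i (d - 1) + Finsupp.single i (d - 1) = α.1 :=
        tsub_add_cancel_of_le hle
      have hdeg : (α.1 - Finsupp.single i (d - 1)).degree + (d - 1) = e := by
        have h1 := congrArg Finsupp.degree hsum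
        rw [map_add, Finsupp.degree_single, α.2] at h1
        exact h1
      refine ⟨Sum.inl (i, ⟨α.1 - Finsupp.single i (d - 1), hdeg⟩), (d : k)⁻¹, ?_⟩
      show C (d : k)⁻¹ * (monomial (α.1 - Finsupp.single i (d - 1)) 1 *
        pderiv i (∑ j, X j ^ d : MvPolynomial (Fin m) k)) = monomial α.1 1
      have hpd : pderiv i (∑ j, X j ^ d : MvPolynomial (Fin m) k) =
          C (d : k) * monomial (Finsupp.single i (d - 1)) 1 := by
        rw [map_sum, Finset.sum_eq_single i]
        · rw [pderiv_pow, pderiv_X_self, mul_one, X_pow_eq_monomial]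
          simp
        · intro j _ hji
          rw [pderiv_pow, pderiv_X_of_ne hji, mul_zero]
        · intro h
          exact absurd (Finset.mem_univ i) h
      rw [hpd, ← hsum]
      have h2 : C (d : k)⁻¹ * (monomial (α.1 - Finsupp.single i (d - 1)) (1 : k) *
          (C (d : k) * monomial (Finsupp.single i (d - 1)) 1)) =
          C ((d : k)⁻¹ * d) * (monomial (α.1 - Finsupp.single i (d - 1)) (1 : k) *
            monomial (Finsupp.single i (d - 1)) 1) := by
        rw [C_mul]
        ring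
      rw [hsum, h2, inv_mul_cancel₀ hdk, C_1, one_mul, monomial_mul, one_mul, hsum]
    · push Not at h
      refine ⟨Sum.inr fun i => ⟨α.1 i, h i⟩, 1, ?_⟩
      show C 1 * mon _ = _
      rw [C_1, one_mul, monomial_eq, C_1, one_mul, Finsupp.prod_fintype _ _ (fun i => pow_zero _)]
      rfl
  intro v
  have hmem : v ∈ LinearMap.range
      (Matrix.mulVecLin (mat d e (∑ i, X i ^ d : MvPolynomial (Fin m) k))) := by
    rw [pi_eq_sum_univ v]
    refine Submodule.sum_mem _ fun α _ => Submodule.smul_mem _ _ ?_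
    obtain ⟨x, t, hx⟩ := hcol α
    refine ⟨Pi.single x t, ?_⟩
    ext α'
    rw [Matrix.mulVecLin_apply]
    have h1 : (mat d e (∑ i, X i ^ d : MvPolynomial (Fin m) k)).mulVec (Pi.single x t) α' =
        coeff α'.1 (col d e (∑ i, X i ^ d : MvPolynomial (Fin m) k) x) * t := by
      simp [Matrix.mulVec, dotProduct, Pi.single_apply, mat]
    rw [h1, mul_comm, ← coeff_C_mul, hx, coeff_monomial]
    by_cases h2 : α = α'
    · rw [if_pos h2, if_pos (congrArg Subtype.val h2)]
    · rw [if_neg h2, if_neg (fun h3 => h2 (Subtype.ext h3))]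
  obtain ⟨u, hu⟩ := hmem
  exact ⟨u, by rw [← hu, Matrix.mulVecLin_apply]⟩

/-- one degree -/
theorem deg_step (EA : P_EA) {T k : Type} [CommRing T] [Field k] {m d : ℕ} (hd : 2 ≤ d)
    (hdk : (d : k) ≠ 0) (s : T →+* k) (Φ : MvPolynomial (Fin m) T) (hΦ : Φ.IsHomogeneous d)
    (hs : map s Φ = ∑ i, X i ^ d) (e : ℕ) :
    ∃ δ : T, s δ ≠ 0 ∧ ∀ G : MvPolynomial (Fin m) T, G.IsHomogeneous e → Rp d Φ δ e G := by
  obtain ⟨δ, hδ, h⟩ := EA s (mat d e Φ) (by
    rw [map_mat, hs]
    exact surj hd hdk e)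
  refine ⟨δ, hδ, fun G hG => ?_⟩
  obtain ⟨u, hu⟩ := h (fun α => coeff α.1 G)
  have hpd : ∀ (i : Fin m) (γ : Q' m d e) (a : T),
      (monomial γ.1 a * pderiv i Φ).IsHomogeneous e := by
    intro i γ a
    have h1 := (isHomogeneous_monomial a (rfl : γ.1.degree = γ.1.degree)).mul (hΦ.pderiv (i := i))
    rwa [γ.2] at h1
  refine ⟨fun i => ∑ γ : Q' m d e, monomial γ.1 (u (Sum.inl (i, γ))),
    fun β => if ∑ i, (β i : ℕ) = e then u (Sum.inr β) else 0, ?_, ?_, ?_, ?_⟩
  · ext α
    by_cases hα : α.degree = e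
    · have h1 := congrFun hu ⟨α, hα⟩
      rw [Pi.smul_apply, smul_eq_mul] at h1
      rw [coeff_C_mul]
      change _ = δ * coeff α G at h1
      rw [← h1]
      simp only [Matrix.mulVec, dotProduct, Fintype.sum_sum_type, coeff_add, coeff_sum,
        Finset.sum_mul, coeff_C_mul, Fintype.sum_prod_type]
      congr 1
      · refine Finset.sum_congr rfl fun i _ => Finset.sum_congr rfl fun γ _ => ?_
        show coeff α (monomial γ.1 1 * pderiv i Φ) * u (Sum.inl (i, γ)) = _
        have h2 : monomial γ.1 (u (Sum.inl (i, γ))) * pderiv i Φ =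
            C (u (Sum.inl (i, γ))) * (monomial γ.1 1 * pderiv i Φ) := by
          rw [← mul_assoc, C_mul_monomial, mul_one]
        rw [h2, coeff_C_mul, mul_comm]
      · refine Finset.sum_congr rfl fun β _ => ?_
        show coeff α (mon β) * u (Sum.inr β) = _
        split_ifs with h2
        · rw [mul_comm]
        · rw [(mon_hom β).coeff_eq_zero (by rw [hα]; exact fun h3 => h2 h3.symm), zero_mul,
            mul_zero]
    · rw [(hG.C_mul δ).coeff_eq_zero hα, coeff_add, coeff_sum, coeff_sum]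
      rw [Finset.sum_eq_zero, Finset.sum_eq_zero, add_zero]
      · intro β _
        show coeff α (C (if ∑ i, (β i : ℕ) = e then u (Sum.inr β) else 0) * mon β) = 0
        split_ifs with h2
        · rw [coeff_C_mul, (mon_hom β).coeff_eq_zero (by rw [h2]; exact hα), mul_zero]
        · rw [C_0, zero_mul, coeff_zero]
      · intro i _
        rw [Finset.sum_mul, coeff_sum]
        exact Finset.sum_eq_zero fun γ _ => (hpd i γ _).coeff_eq_zero hα
  · intro i
    refine IsHomogeneous.sum _ _ _ fun γ _ => isHomogeneous_monomial _ ?_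
    have := γ.2
    omega
  · intro he i
    refine Finset.sum_eq_zero fun γ _ => ?_
    have := γ.2
    omega
  · intro β hβ
    exact if_neg hβ

theorem t_EB (EA : P_EA) : P_EB := by
  intro T k _ _ m d hd hdk s Φ hΦ hs
  choose δ hδ h using deg_step EA hd hdk s Φ hΦ hs
  set e₁ := m * (d - 2) + 1 with he₁
  set D : T := ∏ e ∈ Finset.range (e₁ + 1), δ e with hD
  have hlow : ∀ e ≤ e₁, ∀ G : MvPolynomial (Fin m) T, G.IsHomogeneous e → Rp d Φ D e G := by
    intro e he G hG
    have h1 : D = (∏ e' ∈ (Finset.range (e₁ + 1)).erase e, δ e') * δ e :=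
      (Finset.prod_erase_mul _ _ (Finset.mem_range.mpr (by omega))).symm
    rw [h1]
    exact (h e G hG).mul _
  have hhigh : ∀ e, e₁ ≤ e → ∀ G : MvPolynomial (Fin m) T, G.IsHomogeneous e → Rp d Φ D e G := by
    intro e he
    induction e, he using Nat.le_induction with
    | base => exact hlow e₁ le_rfl
    | succ e he ih => exact Rp.step hd (by omega) ih
  refine ⟨D, ?_, ?_⟩
  · rw [hD, map_prod]
    exact Finset.prod_ne_zero_iff.mpr fun e _ => hδ e
  · intro e G hG
    rcases le_total e e₁ with he | he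
    · exact hlow e he G hG
    · exact hhigh e he G hG

end Pool.Agent.Q150.ND
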